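import Mathlib
import Pool.Agent.H.MP_2d1133_lc.Core
open scoped NNReal ENNReal
namespace Pool.Agent.Results.MP_2d1133_lc.NoSet

theorem result (s : ℝ≥0) (hs0 : 0 < s) (hs1 : s < 1) (E : Set (EuclideanSpace ℝ (Fin 2)))
    (hE : dimH E = 1 + (s : ℝ≥0∞)) :
    ∃ f : EuclideanSpace ℝ (Fin 2) → ℝ, Continuous f ∧ (s : ℝ≥0∞) < dimH (f '' E) := by
  let e : EuclideanSpace ℝ (Fin 2) ≃L[ℝ] ℝ × ℝ :=
    (EuclideanSpace.equiv (Fin 2) ℝ).trans (ContinuousLinearEquiv.finTwoArrow ℝ ℝ)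
  have h0 : dimH (e '' E) = 1 + (s : ℝ≥0∞) := by rw [e.dimH_image, hE]
  obtain ⟨f, hf, h⟩ := Pool.Agent.H.MP_2d1133_lc.main (e '' E) s
    (by
      rw [h0]
      have : (1 : ℝ≥0) < 1 + s := by simpa using hs0
      exact_mod_cast this)
    (by
      rw [h0]
      have : 2 * s < 1 + s := by rw [two_mul]; simpa using hs1
      exact_mod_cast this)
  refine ⟨f ∘ e, hf.comp e.continuous, ?_⟩
  rwa [Set.image_comp]

end Pool.Agent.Results.MP_2d1133_lc.NoSet
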